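import Pool.Agent.helper40.SU.SpecT

set_option autoImplicit false

open Finset

open scoped NumberTheorySymbols

namespace Pool.Agent.SU

theorem TN1_sq (n d p : ℕ) (hp : p.Prime) (hpo : p % 2 = 1) (hdo : d % 2 = 1) (h2p : 2 * p + 1 = d * n)
    (hJ : J(-(d : ℤ) | p) = 1) : ∃ x : ℤ, ((d : ℤ) * n - 1) ∣ (x ^ 2 + d) := by
  haveI : Fact p.Prime := ⟨hp⟩
  obtain ⟨y, hy⟩ := ZMod.isSquare_of_jacobiSym_eq_one hJ
  have h1 : ((p : ℤ)) ∣ ((y.val : ℤ) ^ 2 + d) := by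
    rw [← ZMod.intCast_zmod_eq_zero_iff_dvd]
    push_cast
    rw [ZMod.natCast_zmod_val, sq, ← hy]
    push_cast
    ring
  have h3 : ((d : ℤ) * n - 1) = 2 * p := by
    have h4 : ((2 * p + 1 : ℕ) : ℤ) = ((d * n : ℕ) : ℤ) := by rw [h2p]
    push_cast at h4
    linarith
  have hcop : IsCoprime (2 : ℤ) (p : ℤ) := by
    have h5 : Nat.Coprime 2 p := by
      rw [Nat.coprime_two_left]
      exact Nat.odd_iff.2 hpo
    exact_mod_cast Nat.isCoprime_iff_coprime.2 h5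
  have hpz : (p : ℤ) % 2 = 1 := by exact_mod_cast hpo
  have hdz : (d : ℤ) % 2 = 1 := by exact_mod_cast hdo
  rw [h3]
  have fin : ∀ x : ℤ, (p : ℤ) ∣ x ^ 2 + d → x % 2 = 1 → (2 * (p : ℤ)) ∣ x ^ 2 + d := by
    intro x hx hxo
    refine hcop.mul_dvd ?_ hx
    have h6 : (x ^ 2 + d) % 2 = 0 := by
      have h7 : x ^ 2 % 2 = 1 := by
        rw [sq, Int.mul_emod, hxo]
        norm_num
      omega
    exact Int.dvd_of_emod_eq_zero h6
  by_cases hyo : (y.val : ℤ) % 2 = 1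
  · exact ⟨y.val, fin _ h1 hyo⟩
  · refine ⟨(y.val : ℤ) + p, fin _ ?_ (by omega)⟩
    obtain ⟨c, hc⟩ := h1
    refine ⟨c + 2 * y.val + p, ?_⟩
    linear_combination hc

theorem TN1_main (hTQR : TQR_stmt) (n c : ℕ) (hn : 3 ≤ n)
    (hc : (c = 1 ∧ n % 8 = 3) ∨ (c = 3 ∧ n % 8 = 1) ∨ (c = 3 ∧ n % 8 = 5)) :
    ∃ a b c : ℤ, (n : ℤ) = a ^ 2 + b ^ 2 + c ^ 2 := by
  obtain ⟨m, hm⟩ : ∃ m, 2 * m + 1 = c * n := by
    rcases hc with ⟨rfl, h⟩ | ⟨rfl, h⟩ | ⟨rfl, h⟩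
    · exact ⟨(n - 1) / 2, by omega⟩
    · exact ⟨(3 * n - 1) / 2, by omega⟩
    · exact ⟨(3 * n - 1) / 2, by omega⟩
  have hmo : m % 2 = 1 := by
    rcases hc with ⟨rfl, h⟩ | ⟨rfl, h⟩ | ⟨rfl, h⟩ <;> omega
  have hcop : Nat.Coprime m (4 * n) := by
    have h2 : Nat.Coprime m 4 := by
      have : Nat.Coprime m 2 := by
        rw [Nat.coprime_two_right]
        exact Nat.odd_iff.2 hmo
      exact Nat.Coprime.pow_right 2 this
    have h3 : Nat.Coprime m n := by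
      refine Nat.coprime_of_dvd fun q hq hqm hqn => ?_
      have h4 : q ∣ c * n := Dvd.dvd.mul_left hqn c
      rw [← hm] at h4
      have h5 : q ∣ 1 := (Nat.dvd_add_right (Dvd.dvd.mul_left hqm 2)).1 h4
      exact hq.one_lt.ne' (Nat.dvd_one.1 h5)
    exact Nat.Coprime.mul_right h2 h3
  obtain ⟨p, hpm, hp, hmod⟩ := Nat.forall_exists_prime_gt_and_modEq (m + 2) (by omega : 4 * n ≠ 0) hcop
  obtain ⟨j, hj⟩ : ∃ j, p = m + 4 * n * j := by
    have h6 : 4 * n ∣ p - m := (Nat.modEq_iff_dvd' (by omega : m ≤ p)).1 hmod.symm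
    obtain ⟨j, hj⟩ := h6
    exact ⟨j, by omega⟩
  have h2p : 2 * p + 1 = (8 * j + c) * n := by
    rw [hj, add_mul, ← hm]
    ring
  have hpo : p % 2 = 1 := by
    have : 4 * n * j = 2 * (2 * n * j) := by ring
    omega
  have hp4 : p % 4 = m % 4 := by
    have : 4 * n * j = 4 * (n * j) := by ring
    omega
  have hdo : (8 * j + c) % 2 = 1 := by
    rcases hc with ⟨rfl, h⟩ | ⟨rfl, h⟩ | ⟨rfl, h⟩ <;> omega
  have hOd : Odd (8 * j + c) := Nat.odd_iff.2 hdo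
  have hOp : Odd p := Nat.odd_iff.2 hpo
  -- the symbol of `p`
  have hJ1 : J(2 | 8 * j + c) * J((p : ℤ) | 8 * j + c) = J(-1 | 8 * j + c) := by
    rw [← jacobiSym.mul_left]
    refine jacobiSym.mod_left' ?_
    have h7 : (2 * (p : ℤ)) - (-1) = ((8 * j + c : ℕ) : ℤ) * n := by
      have h8 : ((2 * p + 1 : ℕ) : ℤ) = (((8 * j + c) * n : ℕ) : ℤ) := by rw [h2p]
      push_cast at h8 ⊢
      linarith
    have h10 : (-1 : ℤ) ≡ 2 * (p : ℤ) [ZMOD ((8 * j + c : ℕ) : ℤ)] := Int.modEq_iff_dvd.2 ⟨n, h7⟩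
    exact h10.symm
  have hpJ : J((p : ℤ) | 8 * j + c) = 1 := by
    rw [jacobiSym.at_two hOd, jacobiSym.at_neg_one hOd] at hJ1
    rcases hc with ⟨rfl, h⟩ | ⟨rfl, h⟩ | ⟨rfl, h⟩
    · have h8 : ZMod.χ₈ ((8 * j + 1 : ℕ) : ZMod 8) = 1 := by
        rw [ZMod.χ₈_nat_mod_eight, show (8 * j + 1) % 8 = 1 by omega]
        decide
      have h4 : ZMod.χ₄ ((8 * j + 1 : ℕ) : ZMod 4) = 1 := ZMod.χ₄_nat_one_mod_four (by omega)
      rw [h8, h4] at hJ1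
      linarith
    · have h8 : ZMod.χ₈ ((8 * j + 3 : ℕ) : ZMod 8) = -1 := by
        rw [ZMod.χ₈_nat_mod_eight, show (8 * j + 3) % 8 = 3 by omega]
        decide
      have h4 : ZMod.χ₄ ((8 * j + 3 : ℕ) : ZMod 4) = -1 := ZMod.χ₄_nat_three_mod_four (by omega)
      rw [h8, h4] at hJ1
      linarith
    · have h8 : ZMod.χ₈ ((8 * j + 3 : ℕ) : ZMod 8) = -1 := by
        rw [ZMod.χ₈_nat_mod_eight, show (8 * j + 3) % 8 = 3 by omega]
        decide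
      have h4 : ZMod.χ₄ ((8 * j + 3 : ℕ) : ZMod 4) = -1 := ZMod.χ₄_nat_three_mod_four (by omega)
      rw [h8, h4] at hJ1
      linarith
  have hJ : J(-((8 * j + c : ℕ) : ℤ) | p) = 1 := by
    rw [jacobiSym.neg _ hOp]
    rcases hc with ⟨rfl, h⟩ | ⟨rfl, h⟩ | ⟨rfl, h⟩
    · have h9 : p % 4 = 1 := by omega
      rw [ZMod.χ₄_nat_one_mod_four h9, one_mul, ← jacobiSym.quadratic_reciprocity_one_mod_four h9 hOd]
      exact hpJ
    · have h9 : p % 4 = 1 := by omega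
      rw [ZMod.χ₄_nat_one_mod_four h9, one_mul, ← jacobiSym.quadratic_reciprocity_one_mod_four h9 hOd]
      exact hpJ
    · have h9 : p % 4 = 3 := by omega
      rw [ZMod.χ₄_nat_three_mod_four h9,
        jacobiSym.quadratic_reciprocity_three_mod_four (by omega : (8 * j + 3) % 4 = 3) h9, hpJ]
      norm_num
  obtain ⟨x, hx⟩ := TN1_sq n (8 * j + c) p hp hpo hdo h2p hJ
  have hd0 : 0 < ((8 * j + c : ℕ) : ℤ) := by
    have : 0 < 8 * j + c := by omega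
    exact_mod_cast this
  exact hTQR n ((8 * j + c : ℕ) : ℤ) x (by exact_mod_cast (by omega : 2 ≤ n)) hd0 hx

theorem TN1 (hTQR : TQR_stmt) : TN1_stmt := by
  intro n hn
  by_cases h1 : n = 1
  · subst h1
    exact ⟨1, 0, 0, by norm_num⟩
  · rcases hn with h | h | h
    · exact TN1_main hTQR n 3 (by omega) (Or.inr (Or.inl ⟨rfl, h⟩))
    · exact TN1_main hTQR n 1 (by omega) (Or.inl ⟨rfl, h⟩)
    · exact TN1_main hTQR n 3 (by omega) (Or.inr (Or.inr ⟨rfl, h⟩))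

end Pool.Agent.SU
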